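import Pool.Agent.Helper70.MM.Goals

/-!
Packet MM-ULOC (MP_91ee6f_gt).
-/

open MeasureTheory Set Metric
open scoped ENNReal RealInnerProductSpace Topology
open Pool.Agent.Results.MP_91ee6f_gt
open Pool.Agent.Helper70.MM

namespace Pool.Agent.Helper38.MM

/-- second derivative test, maximum -/
lemma second_max (f f' : ℝ → ℝ) (c η : ℝ) (hη : 0 < η)
    (h1 : ∀ t : ℝ, |t| < η → HasDerivAt f (f' t) t) (h2 : HasDerivAt f' c 0)
    (hm : IsLocalMax f 0) : c ≤ 0 := by
  by_contra hc
  push Not at hc
  have hev : deriv f =ᶠ[𝓝 0] f' := by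
    have h3 : ∀ᶠ t in 𝓝 (0 : ℝ), |t| < η := by
      filter_upwards [Metric.ball_mem_nhds (0 : ℝ) hη] with t ht
      simpa [Real.dist_eq] using ht
    filter_upwards [h3] with t ht
    exact (h1 t ht).deriv
  have hdd : deriv (deriv f) 0 = c := by
    rw [hev.deriv_eq]
    exact h2.deriv
  have hd : deriv f 0 = 0 := hm.deriv_eq_zero
  have hcont : ContinuousAt f 0 := (h1 0 (by simpa using hη)).continuousAt
  have hmin : IsLocalMin f 0 := isLocalMin_of_deriv_deriv_pos (by rw [hdd]; exact hc) hd hcont
  have hconst : f =ᶠ[𝓝 0] fun _ => f 0 := by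
    filter_upwards [hm, hmin] with t h3 h4
    exact le_antisymm h3 h4
  have h5 : deriv (deriv f) 0 = 0 := by
    rw [hconst.deriv.deriv_eq]
    simp
  linarith

/-- second derivative test, minimum -/
lemma second_min (f f' : ℝ → ℝ) (c η : ℝ) (hη : 0 < η)
    (h1 : ∀ t : ℝ, |t| < η → HasDerivAt f (f' t) t) (h2 : HasDerivAt f' c 0)
    (hm : IsLocalMin f 0) : 0 ≤ c := by
  have h := second_max (fun t => -f t) (fun t => -f' t) (-c) η hη
    (fun t ht => (h1 t ht).neg) h2.neg hm.neg
  linarith

lemma tendsto_line {n : ℕ} (x e : En n) :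
    Filter.Tendsto (fun t : ℝ => x + t • e) (𝓝 0) (𝓝 x) := by
  have h : Continuous fun t : ℝ => x + t • e := by fun_prop
  have h1 := h.tendsto 0
  simpa using h1

/-- the Laplacian of the potential -/
lemma laplace (hUD : UD) {n : ℕ} (hn : 0 < n) (j : ℕ) (ν : Measure (En n))
    (hν : IsFiniteMeasure ν) (x : En n) (δ : ℝ) (hδ : 0 < δ) (hd : ∀ᵐ y ∂ν, δ ≤ dist x y) :
    ∑ i : Fin n, ∫ y, (om (j + 2) (dist x y) *
        (inner ℝ (x - y) (EuclideanSpace.single i (1 : ℝ))) ^ 2 - om (j + 1) (dist x y)) ∂ν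
      = U ν j x + ((2 * j + 1 : ℝ) - n) * U ν (j + 1) x := by
  have hU := fun i : Fin n => hUD n j ν hν x (EuclideanSpace.single i (1 : ℝ)) δ hδ (by simp) hd
  obtain ⟨hi1, hi2, -⟩ := hU ⟨0, hn⟩
  rw [← integral_finsetSum]
  · have h1 : ∫ y, ∑ i : Fin n, (om (j + 2) (dist x y) *
        (inner ℝ (x - y) (EuclideanSpace.single i (1 : ℝ))) ^ 2 - om (j + 1) (dist x y)) ∂ν
        = ∫ y, (om j (dist x y) + ((2 * j + 1 : ℝ) - n) * om (j + 1) (dist x y)) ∂ν := by
      refine integral_congr_ae ?_
      filter_upwards [hd] with y hy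
      have hs : 0 < dist x y := lt_of_lt_of_le hδ hy
      have h2 : ∑ i : Fin n, (inner ℝ (x - y) (EuclideanSpace.single i (1 : ℝ))) ^ 2
          = dist x y ^ 2 := by
        rw [dist_eq_norm, EuclideanSpace.norm_sq_eq]
        refine Finset.sum_congr rfl fun i _ => ?_
        rw [EuclideanSpace.inner_single_right]
        simp
      rw [Finset.sum_sub_distrib, ← Finset.mul_sum, h2]
      have h3 := om_rel j hs
      simp only [Finset.sum_const, Finset.card_univ, Fintype.card_fin, nsmul_eq_mul]
      linarith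
    rw [h1, integral_add hi1 (hi2.const_mul _), integral_const_mul]
    rfl
  · intro i _
    obtain ⟨-, h2, h3, -⟩ := hU i
    exact h3.sub h2

/-- PACKET MM-ULOC -/
theorem uloc : UD → ULOC := by
  intro hUD n j ν hν x δ hδ hd
  rcases Nat.eq_zero_or_pos n with rfl | hn
  · have hν0 : ν = 0 := by
      have h1 : ∀ᵐ y ∂ν, False := by
        filter_upwards [hd] with y hy
        have : dist x y = 0 := by
          have : x = y := Subsingleton.elim _ _
          rw [this, dist_self]
        linarith
      rw [← Measure.measure_univ_eq_zero]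
      have h2 := ae_iff.1 h1
      simpa using h2
    subst hν0
    simp [U]
  · have hU := fun i : Fin n => hUD n j ν hν x (EuclideanSpace.single i (1 : ℝ)) δ hδ (by simp) hd
    have hlap := laplace hUD hn j ν hν x δ hδ hd
    constructor
    · intro hm
      have h1 : ∀ i : Fin n, ∫ y, (om (j + 2) (dist x y) *
          (inner ℝ (x - y) (EuclideanSpace.single i (1 : ℝ))) ^ 2 - om (j + 1) (dist x y)) ∂ν
            ≤ 0 := by
        intro i
        obtain ⟨-, -, -, h4, h5⟩ := hU i
        refine second_max _ _ _ (δ / 2) (by linarith) h4 h5 ?_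
        have h6 := (tendsto_line x (EuclideanSpace.single i (1 : ℝ))).eventually hm
        filter_upwards [h6] with t ht
        simpa using ht
      have h2 := Finset.sum_nonpos fun i (_ : i ∈ Finset.univ) => h1 i
      rw [hlap] at h2
      linarith
    · intro hm
      have h1 : ∀ i : Fin n, 0 ≤ ∫ y, (om (j + 2) (dist x y) *
          (inner ℝ (x - y) (EuclideanSpace.single i (1 : ℝ))) ^ 2 - om (j + 1) (dist x y)) ∂ν := by
        intro i
        obtain ⟨-, -, -, h4, h5⟩ := hU i
        refine second_min _ _ _ (δ / 2) (by linarith) h4 h5 ?_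
        have h6 := (tendsto_line x (EuclideanSpace.single i (1 : ℝ))).eventually hm
        filter_upwards [h6] with t ht
        simpa using ht
      have h2 := Finset.sum_nonneg fun i (_ : i ∈ Finset.univ) => h1 i
      rw [hlap] at h2
      linarith

end Pool.Agent.Helper38.MM
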